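import Mathlib

/-!
# The independent domination number of a tree is at most its weak domination number

Root the tree at `r`.  Given a weak dominating set `W`, call a vertex outside `W` *needy* when
none of its children is in `W`.  Build `S` from the top: `r ∈ S`, and a vertex `v ≠ r` with parent
`u` is in `S` when `u ∉ S` and (`v ∈ W` or `u` is needy).  Then `S` is an independent dominating
set, and sending `v ∈ S \ W` to a child of `v` in `W` is an injection of `S` into `W`.
-/

namespace Pool.Agent.Results.MP_2d208d_co.WeakDominationTrees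

/-- Every vertex outside `D` has a neighbour in `D`. -/
def IsDominating {V : Type} (G : SimpleGraph V) (D : Set V) : Prop :=
  ∀ v, v ∉ D → ∃ u ∈ D, G.Adj u v

/-- Every vertex outside `D` has a neighbour in `D` whose degree is at most its own. -/
def IsWeakDominating {V : Type} (G : SimpleGraph V) (D : Set V) : Prop :=
  ∀ v, v ∉ D → ∃ u ∈ D, G.Adj u v ∧ (G.neighborSet u).ncard ≤ (G.neighborSet v).ncard

/-- The independent domination number. -/
noncomputable def indepDom {V : Type} (G : SimpleGraph V) : ℕ :=
  sInf {n | ∃ D : Set V, IsDominating G D ∧ (∀ u ∈ D, ∀ v ∈ D, ¬ G.Adj u v) ∧ D.ncard = n}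

/-- The weak domination number. -/
noncomputable def weakDom {V : Type} (G : SimpleGraph V) : ℕ :=
  sInf {n | ∃ D : Set V, IsWeakDominating G D ∧ D.ncard = n}

variable {V : Type} {T : SimpleGraph V}

lemma parent_unique (hT : T.IsTree) (r : V) {u u' v : V} (hu : T.Adj u v) (hu' : T.Adj u' v)
    (h : T.dist r v = T.dist r u + 1) (h' : T.dist r v = T.dist r u' + 1) : u = u' := by
  obtain ⟨p, hp, hpl⟩ := hT.connected.exists_path_of_dist r u
  obtain ⟨q, hq, hql⟩ := hT.connected.exists_path_of_dist r u'
  have h1 : (p.concat hu).IsPath := by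
    apply SimpleGraph.Walk.isPath_of_length_eq_dist
    rw [SimpleGraph.Walk.length_concat, hpl, h]
  have h2 : (q.concat hu').IsPath := by
    apply SimpleGraph.Walk.isPath_of_length_eq_dist
    rw [SimpleGraph.Walk.length_concat, hql, h']
  have h3 := (hT.isAcyclic.subsingleton_path r v).elim ⟨_, h1⟩ ⟨_, h2⟩
  have h4 : p.concat hu = q.concat hu' := congrArg Subtype.val h3
  obtain ⟨h5, -⟩ := SimpleGraph.Walk.concat_inj h4
  exact h5

lemma exists_parent (hT : T.IsTree) (r : V) {v : V} (hv : v ≠ r) :
    ∃ u, T.Adj u v ∧ T.dist r v = T.dist r u + 1 := by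
  obtain ⟨p, hp, hpl⟩ := hT.connected.exists_path_of_dist v r
  cases p with
  | nil => exact absurd rfl hv
  | @cons _ u _ h q =>
    refine ⟨u, h.symm, ?_⟩
    have h1 : T.dist u r ≤ q.length := SimpleGraph.dist_le q
    rw [SimpleGraph.Walk.length_cons] at hpl
    rw [SimpleGraph.dist_comm] at h1 hpl
    rcases hT.dist_eq_dist_add_one_of_adj r h with h2 | h2
    · exact h2
    · omega

/-- Membership of the vertices at distance `n` from the root in the independent set. -/
def level (T : SimpleGraph V) (r : V) (W : Set V) : ℕ → V → Prop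
  | 0, _ => True
  | n + 1, v => ∃ u, T.Adj u v ∧ T.dist r u = n ∧ ¬ level T r W n u ∧
      (v ∈ W ∨ (u ∉ W ∧ ∀ c, T.Adj u c → T.dist r c = T.dist r u + 1 → c ∉ W))

theorem main [Finite V] (hT : T.IsTree) (W : Set V) (hW : IsWeakDominating T W) :
    ∃ S : Set V, IsDominating T S ∧ (∀ u ∈ S, ∀ v ∈ S, ¬ T.Adj u v) ∧ S.ncard ≤ W.ncard := by
  classical
  obtain ⟨r⟩ := hT.connected.nonempty
  set d : V → ℕ := fun v => T.dist r v with hd
  have hdr : d r = 0 := by simp [hd]
  set N : V → Prop := fun u => u ∉ W ∧ ∀ c, T.Adj u c → d c = d u + 1 → c ∉ W with hN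
  set S : Set V := {v | level T r W (d v) v} with hS
  have hrS : r ∈ S := by
    change level T r W (d r) r
    rw [hdr]
    trivial
  have hrec : ∀ u v, T.Adj u v → d v = d u + 1 → (v ∈ S ↔ u ∉ S ∧ (v ∈ W ∨ N u)) := by
    intro u v huv hduv
    change level T r W (d v) v ↔ _
    rw [hduv]
    constructor
    · rintro ⟨u', hu'v, hu'd, hu', h⟩
      have : u' = u := parent_unique hT r hu'v huv (by
        change d v = T.dist r u' + 1
        rw [hu'd]; exact hduv) hduv
      subst this
      exact ⟨hu', h⟩
    · rintro ⟨h1, h2⟩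
      exact ⟨u, huv, rfl, h1, h2⟩
  have hadj : ∀ u v, T.Adj u v → d u = d v + 1 ∨ d v = d u + 1 := by
    intro u v huv
    exact hT.dist_eq_dist_add_one_of_adj r huv
  -- independence
  have hind : ∀ u ∈ S, ∀ v ∈ S, ¬ T.Adj u v := by
    intro u hu v hv huv
    rcases hadj u v huv with h | h
    · exact ((hrec v u huv.symm h).1 hu).1 hv
    · exact ((hrec u v huv h).1 hv).1 hu
  -- domination
  have hdom : IsDominating T S := by
    intro v hv
    have hvr : v ≠ r := fun h => hv (h ▸ hrS)
    obtain ⟨u, huv, hduv⟩ := exists_parent hT r hvr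
    by_cases hu : u ∈ S
    · exact ⟨u, hu, huv⟩
    · have h1 : ¬ (v ∈ W ∨ N u) := fun h => hv ((hrec u v huv hduv).2 ⟨hu, h⟩)
      rw [not_or] at h1
      obtain ⟨hvW, hNu⟩ := h1
      by_cases hNv : N v
      · -- `v` is needy: it has a child, and its children are in `S`
        by_cases hch : ∃ c, T.Adj v c ∧ d c = d v + 1
        · obtain ⟨c, hvc, hdc⟩ := hch
          exact ⟨c, (hrec v c hvc hdc).2 ⟨hv, Or.inr hNv⟩, hvc.symm⟩
        · exfalso
          push Not at hch
          -- all neighbours of `v` are equal to `u`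
          have hnb : T.neighborSet v = {u} := by
            ext c
            simp only [SimpleGraph.mem_neighborSet, Set.mem_singleton_iff]
            constructor
            · intro hvc
              rcases hadj v c hvc with h | h
              · exact parent_unique hT r hvc.symm huv h hduv
              · exact absurd h (hch c hvc)
            · rintro rfl
              exact huv.symm
          obtain ⟨w, hwW, hwv, hdeg⟩ := hW v hvW
          have hwu : w = u := by
            have : w ∈ T.neighborSet v := hwv.symm
            rw [hnb] at this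
            exact this
          subst hwu
          rw [hnb, Set.ncard_singleton] at hdeg
          have hur : w ≠ r := fun h => hu (h ▸ hrS)
          obtain ⟨z, hzw, hdz⟩ := exists_parent hT r hur
          have hzv : z ≠ v := by
            rintro rfl
            have h1 : d z = d w + 1 := hduv
            have h2 : d w = d z + 1 := hdz
            omega
          have hsub : ({z, v} : Set V) ⊆ T.neighborSet w := by
            intro x hx
            rcases hx with rfl | hx
            · exact hzw.symm
            · rw [Set.mem_singleton_iff] at hx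
              subst hx
              exact hwv
          have h2 := Set.ncard_le_ncard hsub (Set.toFinite _)
          rw [Set.ncard_pair hzv] at h2
          omega
      · -- `v` has a child in `W`
        have : ∃ c, T.Adj v c ∧ d c = d v + 1 ∧ c ∈ W := by
          by_contra hcon
          push Not at hcon
          exact hNv ⟨hvW, hcon⟩
        obtain ⟨c, hvc, hdc, hcW⟩ := this
        exact ⟨c, (hrec v c hvc hdc).2 ⟨hv, Or.inl hcW⟩, hvc.symm⟩
  -- the injection
  have hchild : ∀ v, v ∈ S → v ∉ W → ∃ c, T.Adj v c ∧ d c = d v + 1 ∧ c ∈ W := by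
    intro v hvS hvW
    obtain ⟨w, hwW, hwv, -⟩ := hW v hvW
    rcases hadj v w hwv.symm with h | h
    · exfalso
      -- `w` is the parent of `v`
      have h1 := (hrec w v hwv h).1 hvS
      rcases h1.2 with h2 | h2
      · exact hvW h2
      · exact h2.1 hwW
    · exact ⟨w, hwv.symm, h, hwW⟩
  refine ⟨S, hdom, hind, ?_⟩
  choose! ch hch1 hch2 hch3 using hchild
  apply Set.ncard_le_ncard_of_injOn (fun v => if v ∈ W then v else ch v)
  · intro v hv
    by_cases hvW : v ∈ W
    · simp [hvW]
    · simpa [hvW] using hch3 v hv hvW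
  · intro v hv v' hv' heq
    simp only at heq
    by_cases h1 : v ∈ W <;> by_cases h2 : v' ∈ W
    · simpa [h1, h2] using heq
    · exfalso
      rw [if_pos h1, if_neg h2] at heq
      have h3 := (hrec v' (ch v') (hch1 v' hv' h2) (hch2 v' hv' h2)).1 (heq ▸ hv)
      exact h3.1 hv'
    · exfalso
      rw [if_neg h1, if_pos h2] at heq
      have h3 := (hrec v (ch v) (hch1 v hv h1) (hch2 v hv h1)).1 (heq ▸ hv')
      exact h3.1 hv
    · rw [if_neg h1, if_neg h2] at heq
      have h3 := hch1 v hv h1
      have h4 := hch2 v hv h1
      rw [heq] at h3 h4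
      exact parent_unique hT r h3 (hch1 v' hv' h2) h4 (hch2 v' hv' h2)

/-- For every finite tree the independent domination number is at most the weak domination
number. -/
theorem result {V : Type} [Finite V] (T : SimpleGraph V) (hT : T.IsTree) :
    indepDom T ≤ weakDom T := by
  have hne : {n | ∃ D : Set V, IsWeakDominating T D ∧ D.ncard = n}.Nonempty :=
    ⟨_, Set.univ, fun v hv => absurd (Set.mem_univ v) hv, rfl⟩
  obtain ⟨W, hW, hWn⟩ := Nat.sInf_mem hne
  obtain ⟨S, hS1, hS2, hS3⟩ := main hT W hW
  have h1 : indepDom T ≤ S.ncard := Nat.sInf_le ⟨S, hS1, hS2, rfl⟩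
  exact h1.trans (hS3.trans hWn.le)

end Pool.Agent.Results.MP_2d208d_co.WeakDominationTrees
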